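import Mathlib
import Pool.Agent.H916R3.HFC.Main
import Pool.Agent.Helper292.ForceCH

set_option autoImplicit false

/-!
# The statement of the problem is not a theorem of ZFC: it fails under the continuum hypothesis

Under CH we construct, by a recursion of length `ω₁`, points `x α` (`α < ω₁`) of the Cantor cube
`2^{ω₁}` such that `x α` is mutually generic with its predecessors below `α` and vanishes on
`[α, ω₁)`. Let `X` be the set of these points with the subspace topology.

* By a delta-system argument, no uncountable sequence of finite tuples of points of `X` is right
  separated (all finite powers of `X` are hereditarily Lindelöf); hence `C_p(X)` is hereditarily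
  separable.
* A countable set `D` of continuous functions depends (for the values below `1/2`) on countably many
  coordinates. If `δ` is above these coordinates, the coordinate function `δ` is not the limit of a
  sequence from `D`: it vanishes at the points `x β`, `β < δ`, dense on the coordinates of `D`, so
  each set `{z : u k z ≥ 1/2 for all k ≥ m}` is nowhere dense on these coordinates and contains no
  `x α` with `α` large.
-/

namespace Pool.Agent.Results.MP_8c4e2c_gt.ConsistentlyNot

open Pool.Agent.Helper292.ForceCH (OmegaOnePreserved CHHolds)

/-- The statement of the problem: if `C_p(X)` is hereditarily separable, then it is sequentially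
separable. -/
def Statement : Prop :=
  ∀ (X : Type) [TopologicalSpace X] [T35Space X],
    (∀ S : Set {f : X → ℝ // Continuous f}, ∃ c ⊆ S, c.Countable ∧ S ⊆ closure c) →
    ∃ D : Set {f : X → ℝ // Continuous f}, D.Countable ∧ seqClosure D = Set.univ

/-- (A) There is a notion of forcing all of whose conditions force that `ω₁` is preserved and that
the continuum hypothesis holds. (B) The continuum hypothesis implies that the statement of the
problem is false: there is a Tychonoff space `X` such that `C_p(X)` is hereditarily separable but
not sequentially separable. -/
theorem result :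
    (∃ (P : Type) (_ : Preorder P), Nonempty P ∧
      ∀ p : P, p ∈ OmegaOnePreserved P ∧ p ∈ CHHolds P) ∧
    (Cardinal.aleph.{0} 1 = Cardinal.continuum → ¬ Statement) := by
  refine ⟨?_, fun hCH hS => ?_⟩
  · obtain ⟨P, hP, hne, h⟩ := Pool.Agent.Helper292.ForceCH.exists_forcing
    exact ⟨P, hP, hne, fun p => ⟨(h p).1, (h p).2.2⟩⟩
  · obtain ⟨X, hX1, hX2, S, hs, -, -, hno⟩ := Pool.Agent.H916R3.HFC.main hCH
    obtain ⟨D, hD, hseq⟩ := hS X hs
    obtain ⟨f, -, hf⟩ := hno D hD
    have hmem : f ∈ seqClosure D := by
      rw [hseq]
      exact Set.mem_univ f
    obtain ⟨u, hu, hlim⟩ := hmem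
    exact hf u hu hlim

end Pool.Agent.Results.MP_8c4e2c_gt.ConsistentlyNot
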